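import Pool.Agent.H72.PNF.S2
import Pool.Agent.H72.PRK.Chg

/-!
# PNF, row SELN: the local conditions of the Selmer groups of the twists over number fields
-/

set_option autoImplicit false

namespace Pool.PNF

open Polynomial Matrix NumberField IsDedekindDomain Pool.HYP Pool.TOW Pool.AVS Pool.T1 Pool.NF
  Pool.PRK

/-- **SELN.** -/
theorem seln (hCPL : CPLNStmt) (hIRD : IRDNStmt) (hLU2 : LU2KStmt) (hLT2 : LT2KStmt)
    (hTAK : TAKNStmt) (hTKL : TKLKStmt) (hCMP : CMPNStmt) (hLDA : LDAKStmt) (hLDB : LDBKStmt)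
    (hIRU : IRUNStmt) (hL2T : L2TStmt) (hL2C : L2CNStmt) : SELNStmt := by
  intro K _ _ D Y hok f hf ϖ hϖ S hST d hd α hα hN
  obtain ⟨hfF, hsm⟩ := hf
  have hfF' := hfF
  obtain ⟨hfm, hfn, -, hfT, hfT'⟩ := hfF'
  obtain ⟨hdisj, hokT, hokT', h23⟩ := hok
  have hodd : Odd f.natDegree := by
    rw [hfn]
    exact ⟨1, rfl⟩
  obtain ⟨⟨hd0, hdS, hdT, hdO⟩, e, hde⟩ := hd
  have h2T : ∀ P ∈ D.T, (2 : 𝓞 K) ∉ P.asIdeal := fun P hP h2 =>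
    Finset.disjoint_left.1 hdisj hP (h23 P (Or.inl h2))
  have hTA := fun P (hP : P ∈ D.T) => hTAK K P (ϖ P) (h2T P hP) (hϖ P hP).1 (hϖ P hP).2 (D.c P)
    (D.γ P) f (hokT P hP) hfm hfn (hfT P hP)
  constructor
  · intro hL
    have hUS : ∀ P : HeightOneSpectrum (𝓞 K), P ∉ S → US P.asIdeal f α := by
      intro P hPS
      by_cases hPT' : P ∈ D.T'
      · exact hIRU K P 1 f (D.ρ P) α hfm hfn (hokT' P hPT') (hfT' P hPT') hα hN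
      · have h2 : (2 : 𝓞 K) ∉ P.asIdeal := fun h2 => hPT' (h23 P (Or.inl h2))
        obtain ⟨ϖ₀, L, hF, O', ι, -, -, hC⟩ := hCMP K P h2
        by_cases hPT : P ∈ D.T
        · exact hLDA (𝓞 K) K P ϖ₀ L O' ι hC 1 f d α hfm hfn (hsm P) (hdT P hPT hPS) hα hN
            (hL L O' ι hC.cpl)
        · exact hLDA (𝓞 K) K P ϖ₀ L O' ι hC 1 f d α hfm hfn (hsm P) (hdO P hPT hPT') hα hN
            (hL L O' ι hC.cpl)
    refine ⟨⟨⟨hα, hN, fun P hP => hUS P fun h1 => hP (hST h1)⟩,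
      hL2T K f d e α hfm hde hL⟩, fun P hP => ?_⟩
    obtain ⟨hT1, -, -, hT4, -⟩ := hTA P hP
    obtain ⟨x, hx, -⟩ := hT1 α hα hN
    refine ⟨x, hx, fun hPS => ?_, fun hPS => (hT4 α x hα hN hx).1 (hUS P hPS)⟩
    obtain ⟨ϖ₀, L, hF, O', ι, -, -, hC₀⟩ := hCMP K P (h2T P hP)
    have hC := compP_chg hC₀ (hϖ P hP).1 (hϖ P hP).2
    obtain ⟨c', γ', hk, hfL, hiff⟩ := hTKL (𝓞 K) K P (ϖ P) L O' ι hC 1 (D.c P) (D.γ P) f le_rfl
      (hokT P hP) hfm hfn (hfT P hP)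
    exact hLDB (𝓞 K) K P (ϖ P) L O' ι hC 1 f d α c' γ' x le_rfl hfm hfn hk hfL (hdS P hPS).1
      (hdS P hPS).2 hα hN (hL L O' ι hC.cpl) ((hiff α hα hN x).1 hx)
  · rintro ⟨⟨⟨-, -, hU⟩, hL2⟩, hT⟩ L _ O' ι hCpl
    by_cases h2 : (2 : L)⁻¹ ∈ O'
    · obtain ⟨P, ϖ₀, -, -, -, hC₀⟩ := hCPL K L O' ι hCpl h2
      by_cases hPT' : P ∈ D.T'
      · exact hIRD K D Y ⟨hdisj, hokT, hokT', h23⟩ f hfF d hd0 α hα hN P hPT' ϖ₀ L O' ι hC₀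
      · by_cases hPT : P ∈ D.T
        · obtain ⟨x, hx, hx1, hx2⟩ := hT P hPT
          by_cases hPS : P ∈ S
          · have hC := compP_chg hC₀ (hϖ P hPT).1 (hϖ P hPT).2
            obtain ⟨c', γ', hk, hfL, hiff⟩ := hTKL (𝓞 K) K P (ϖ P) L O' ι hC 1 (D.c P) (D.γ P) f
              le_rfl (hokT P hPT) hfm hfn (hfT P hPT)
            exact hLT2 (𝓞 K) K P (ϖ P) L O' ι hC 1 f d α c' γ' x le_rfl hfm hfn hk hfL
              (hdS P hPS).1 (hdS P hPS).2 hα hN ((hiff α hα hN x).1 hx) (hx1 hPS)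
          · exact hLU2 (𝓞 K) K P ϖ₀ L O' ι hC₀ f d α hfm hodd (hdT P hPT hPS) hα hN
              (((hTA P hPT).2.2.2.1 α x hα hN hx).2 (hx2 hPS))
        · exact hLU2 (𝓞 K) K P ϖ₀ L O' ι hC₀ f d α hfm hodd (hdO P hPT hPT') hα hN (hU P hPT)
    · exact hL2C K f d e α hfm hfn hde hL2 L O' ι hCpl h2

end Pool.PNF
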