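import Pool.Agent.H14.PNF.Base
import Pool.Agent.H46.NF.L
import Pool.Agent.H2.NF.S3
import Pool.Agent.H72.PRK.S2

/-!
# PNF: statements of the modules, part 2 (types, and the Selmer groups of the twists, over number
fields)

`K` is a number field, `f` a cubic polynomial of the family.  At the real places `f` has one root,
so there is no condition there (SLN), and the classes at the primes above `2` are restricted by
`Loc2`.  The definitions are in `H14/PNF/Base.lean`.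
-/

set_option autoImplicit false

namespace Pool.PNF

open Polynomial Matrix NumberField IsDedekindDomain Pool.HYP Pool.TOW Pool.AVS Pool.T1 Pool.NF
  Pool.PRK

/-! ### Completions and types -/

/-- CPLN: every completion with residue characteristic different from `2` is the completion at a
prime.  (As CPLK; `O'` does not contain `K`; `P` is the set of the `a` in `𝓞 K` with `ι a` in the
maximal ideal.) -/
def CPLNStmt : Prop :=
  ∀ (K : Type) [Field K] [NumberField K] (L : Type) [Field L] (O' : ValuationSubring L)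
    (ι : K →+* L), Cpl K L O' ι → (2 : L)⁻¹ ∈ O' →
    ∃ (P : HeightOneSpectrum (𝓞 K)) (ϖ : 𝓞 K), (2 : 𝓞 K) ∉ P.asIdeal ∧ ϖ ∈ P.asIdeal ∧
      ϖ ∉ P.asIdeal ^ 2 ∧ CompP P ϖ L O' ι

/-- TAKN: the types over `K` (as TAK, H90/PRK/TAK, with CMPN instead of CMPK). -/
def TAKNStmt : Prop :=
  ∀ (K : Type) [Field K] [NumberField K] (P : HeightOneSpectrum (𝓞 K)) (ϖ : 𝓞 K),
    (2 : 𝓞 K) ∉ P.asIdeal → ϖ ∈ P.asIdeal → ϖ ∉ P.asIdeal ^ 2 → ∀ (c : 𝓞 K) (γ f : (𝓞 K)[X]),
    OkP 2 P.asIdeal γ → f.Monic → f.natDegree = 3 → Zer P.asIdeal (f - (X - C c) * γ) →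
    (∀ α : K[X], IsCoprime α (fk K f) → NSq (fk K f) α → ∃! x : Ty, TyK P.asIdeal ϖ c γ f x α) ∧
    (∀ (α β : K[X]) (x y : Ty), IsCoprime α (fk K f) → NSq (fk K f) α →
      IsCoprime β (fk K f) → NSq (fk K f) β → TyK P.asIdeal ϖ c γ f x α →
      TyK P.asIdeal ϖ c γ f y β → TyK P.asIdeal ϖ c γ f (x + y) (α * β)) ∧
    (∀ (α β s : K[X]) (x : Ty), IsCoprime α (fk K f) → NSq (fk K f) α →
      IsCoprime s (fk K f) → fk K f ∣ β - α * s ^ 2 → TyK P.asIdeal ϖ c γ f x α →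
      TyK P.asIdeal ϖ c γ f x β) ∧
    (∀ (α : K[X]) (x : Ty), IsCoprime α (fk K f) → NSq (fk K f) α →
      TyK P.asIdeal ϖ c γ f x α → (US P.asIdeal f α ↔ x.1 = 0)) ∧
    ∀ α : K[X], IsCoprime α (fk K f) → NSq (fk K f) α →
      TyK P.asIdeal ϖ c γ f 0 α → TR P.asIdeal f α

/-- RECQN: the quadratic form vanishes (`RECANaux.one_class` of H14/NF/RECAN with the completions
of CMPN; TKLK). -/
def RECQNStmt : Prop :=
  RCPNStmt → CMPNStmt → TKLKStmt → ∀ (K : Type) [Field K] [NumberField K],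
    ∃ Ram : Finset (HeightOneSpectrum (𝓞 K)), RecQN Ram

/-! ### Classes which are classes of divisors -/

/-- IRDN: at the primes of `T'` not above `2` every class of square norm is the class of a divisor of
every twist (as IRDK; IRLK). -/
def IRDNStmt : Prop :=
  ∀ (K : Type) [Field K] [NumberField K] (D : DatN K) (Y : ℕ), D.Ok → ∀ f ∈ FamN D Y,
    ∀ d : 𝓞 K, d ≠ 0 → ∀ α : K[X], IsCoprime α (fk K f) → NSq (fk K f) α →
    ∀ P ∈ D.T', ∀ (ϖ : 𝓞 K) (L : Type) [Field L] (O' : ValuationSubring L) (ι : K →+* L),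
      CompP P ϖ L O' ι → LSDK ι d f α

/-- L2CN: the converse of L2T: twists by squares at the completions above `2`.  (SQD: `d = z²`;
`u(x/z²) z^(2 deg u)` and `w(x/z²) z^3`.) -/
def L2CNStmt : Prop :=
  ∀ (K : Type) [Field K] [NumberField K] (f : (𝓞 K)[X]) (d e : 𝓞 K) (α : K[X]), f.Monic →
    f.natDegree = 3 → d = 1 + 8 * e → Loc2 f α → ∀ (L : Type) [Field L]
    (O' : ValuationSubring L) (ι : K →+* L), Cpl K L O' ι → (2 : L)⁻¹ ∉ O' → LSDK ι d f α

/-- L2SN: `Loc2` depends on the class modulo squares only. -/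
def L2SNStmt : Prop :=
  ∀ (K : Type) [Field K] [NumberField K] (f : (𝓞 K)[X]) (α β s : K[X]), f.Monic →
    IsCoprime s (fk K f) → fk K f ∣ β - α * s ^ 2 → Loc2 f α → Loc2 f β

/-- SLN: the real places.  (`f.scaleRoots d` has one real root (`rr1`, H14/NF/RR1, for `f`), so
modulo it `ℝ[x]` is `ℝ × ℂ` and the classes of square norm are squares; `u = 1`.) -/
def SLNStmt : Prop :=
  ∀ (K : Type) [Field K] [NumberField K] (D : DatN K) (Y : ℕ), D.Ok → 1 ≤ Y → ∀ f ∈ FamN D Y,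
    ∀ d : 𝓞 K, d ≠ 0 → SelN (fk K (f.scaleRoots d)) = SelG (fk K (f.scaleRoots d))

/-! ### The Selmer groups of the twists -/

/-- SELN: the local conditions.  (As SELK, H72/PRK/SELK.  `⇒`: CMPN and LDAK, IRUN, LDBK, TKLK, L2T;
`⇐`: CPLN and IRDN, LU2K, LT2K, L2CN.) -/
def SELNStmt : Prop :=
  ∀ (K : Type) [Field K] [NumberField K] (D : DatN K) (Y : ℕ), D.Ok →
    ∀ f ∈ FamSN D Y, ∀ ϖ : HeightOneSpectrum (𝓞 K) → 𝓞 K, Uni D.T ϖ →
    ∀ S ⊆ D.T, ∀ d : 𝓞 K, TwiN D.T D.T' S d → ∀ α : K[X], IsCoprime α (fk K f) →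
    NSq (fk K f) α →
    ((∀ (L : Type) [Field L] (O' : ValuationSubring L) (ι : K →+* L), Cpl K L O' ι →
        LSDK ι d f α) ↔
      (UOut D.T f α ∧ Loc2 f α) ∧ ∀ P ∈ D.T, ∃ x : Ty,
        TyK P.asIdeal (ϖ P) (D.c P) (D.γ P) f x α ∧ (P ∈ S → x.2 = 0) ∧ (P ∉ S → x.1 = 0))

/-- MLGN: the group `M` of the types.  (As MLGK.  `M` is the image of `RcL D.T f` under the types; the
types are injective on `RcG`, as `PatN` fails for `0`, so `RcG` is finite; `#M ≤ 2^#T` as `qf = 0` on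
`M` (L2D, RecQN), `#M ≥ 2^#T` by `CgN`; SLN, SGK, SELN, TAKN, L2M, L2SN.) -/
def MLGNStmt : Prop :=
  ∀ (K : Type) [Field K] [NumberField K] (Ram : Finset (HeightOneSpectrum (𝓞 K))),
    RecQN Ram → CgN K → MlgN Ram

end Pool.PNF
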